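import Pool.Agent.K3h83.FM.Weight

set_option autoImplicit false
set_option linter.unusedSectionVars false
set_option linter.unusedVariables false

/-!
# Matchings in graphs of girth at least twelve: the class of graphs
-/

namespace Pool.Agent.K3h83.FM

open Finset Pool.Agent.TH676.Z Pool.Agent.Y335.FL Pool.Agent.Y358.IN Pool.Agent.H173FL

variable {V E : Type} [Fintype V] [DecidableEq V] [Fintype E] [DecidableEq E]

/-- there are 63 pairwise disjoint connected vertex sets (the fibres of `β`), each of which contains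
two vertices of degree at least three -/
def Pk (src dst : E → V) : Prop :=
  ∃ β : V → Option (Fin 63), ∀ i : Fin 63,
    (∀ X : V → Prop, (∃ v, X v ∧ β v = some i) → (∃ v, ¬ X v ∧ β v = some i) →
      ∃ e, β (src e) = some i ∧ β (dst e) = some i ∧ ¬ (X (src e) ↔ X (dst e))) ∧
    ∃ x y, x ≠ y ∧ β x = some i ∧ β y = some i ∧ 3 ≤ dg src dst x ∧ 3 ≤ dg src dst y

theorem Pk_ctr (src dst : E → V) (e : E) (hne : src e ≠ dst e)
    (h : Pk (ctr (src e) (dst e) ∘ src) (ctr (src e) (dst e) ∘ dst)) : Pk src dst := by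
  obtain ⟨β, h⟩ := h
  set φ := ctr (src e) (dst e) with hφ
  have hφb : φ (dst e) = src e := by simp [hφ, ctr]
  have hφa : φ (src e) = src e := by
    simp only [hφ, ctr]
    split_ifs <;> rfl
  have hφx : ∀ x, x ≠ dst e → φ x = x := by
    intro x hx
    simp [hφ, ctr, hx]
  refine ⟨β ∘ φ, fun i => ⟨?_, ?_⟩⟩
  · intro X hv hv'
    obtain ⟨h1, -⟩ := h i
    obtain ⟨v, hvX, hvt⟩ := hv
    obtain ⟨v', hvX', hvt'⟩ := hv'
    simp only [Function.comp] at hvt hvt' ⊢
    by_cases ha : β (src e) = some i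
    · by_cases hX : X (src e) ↔ X (dst e)
      · have hXφ : ∀ x, X (φ x) ↔ X x := by
          intro x
          by_cases hx : x = dst e
          · rw [hx, hφb, hX]
          · rw [hφx x hx]
        obtain ⟨e', a1, a2, a3⟩ := h1 X ⟨φ v, (hXφ v).mpr hvX, hvt⟩
          ⟨φ v', fun h => hvX' ((hXφ v').mp h), hvt'⟩
        refine ⟨e', a1, a2, fun h => a3 ?_⟩
        simp only [Function.comp]
        rw [hXφ, hXφ]
        exact h
      · exact ⟨e, by rw [hφa]; exact ha, by rw [hφb]; exact ha, hX⟩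
    · have hne : ∀ x, β (φ x) = some i → φ x = x := by
        intro x hx
        refine hφx x fun h => ha ?_
        rw [h, hφb] at hx
        exact hx
      obtain ⟨e', a1, a2, a3⟩ := h1 X ⟨v, hvX, by rw [hne v hvt] at hvt; exact hvt⟩
        ⟨v', hvX', by rw [hne v' hvt'] at hvt'; exact hvt'⟩
      simp only [Function.comp] at a1 a2 a3
      refine ⟨e', a1, a2, fun h => a3 ?_⟩
      rw [hne _ a1, hne _ a2]
      exact h
  · obtain ⟨-, x, y, hxy, hx, hy, dx, dy⟩ := h i
    have hv0 : dg (φ ∘ src) (φ ∘ dst) (dst e) = 0 := Ord.dg_ctr_v src dst hne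
    have hxv : x ≠ dst e := by rintro rfl; omega
    have hyv : y ≠ dst e := by rintro rfl; omega
    -- a vertex of large degree in the class
    have key : ∀ x, β x = some i → x ≠ dst e → 3 ≤ dg (φ ∘ src) (φ ∘ dst) x →
        ∃ x', β (φ x') = some i ∧ 3 ≤ dg src dst x' ∧ φ x' = x := by
      intro x hx hxv dx
      by_cases hxu : x = src e
      · subst hxu
        have h2 : dg (φ ∘ src) (φ ∘ dst) (src e) + 2 ≤ dg src dst (src e) + dg src dst (dst e) :=
          Ord.dg_ctr_u src dst e hne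
        by_cases h4 : 3 ≤ dg src dst (src e)
        · exact ⟨src e, by rw [hφa]; exact hx, h4, hφa⟩
        · exact ⟨dst e, by rw [hφb]; exact hx, by omega, hφb⟩
      · exact ⟨x, by rw [hφx x hxv]; exact hx, dx.trans (Ord.dg_ctr_other src dst hxu),
          hφx x hxv⟩
    obtain ⟨x', x1, x2, x3⟩ := key x hx hxv dx
    obtain ⟨y', y1, y2, y3⟩ := key y hy hyv dy
    exact ⟨x', y', fun h => hxy (by rw [← x3, ← y3, h]), x1, y1, x2, y2⟩

theorem ccP : CC (V := V) (E := E) (fun src dst => ¬ Pk src dst) :=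
  fun src dst e h hne h' => h (Pk_ctr src dst e hne h')

/-- choose 63 pairs -/
theorem pairs63 {G : SimpleGraph V} {T : Finset V} {m : V → V} (hT : 126 ≤ T.card)
    (hm : ∀ x ∈ T, m x ∈ T ∧ m (m x) = x ∧ G.Adj x (m x)) :
    ∃ g : Fin 63 → V, (∀ i, G.Adj (g i) (m (g i))) ∧
      ∀ i j, i ≠ j → g i ≠ g j ∧ g i ≠ m (g j) ∧ m (g i) ≠ g j ∧ m (g i) ≠ m (g j) := by
  classical
  let ι := Fintype.equivFin V
  set P := T.filter (fun x => ι x < ι (m x)) with hP
  have hcov : T ⊆ P ∪ P.image m := by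
    intro x hx
    obtain ⟨h1, h2, h3⟩ := hm x hx
    rcases lt_trichotomy (ι x) (ι (m x)) with h | h | h
    · exact mem_union_left _ (mem_filter.2 ⟨hx, h⟩)
    · exact absurd (ι.injective h) h3.ne
    · apply mem_union_right
      refine mem_image.2 ⟨m x, mem_filter.2 ⟨h1, ?_⟩, h2⟩
      rw [h2]
      exact h
  have hPc : 63 ≤ P.card := by
    have h1 := card_le_card hcov
    have h2 := card_union_le P (P.image m)
    have h3 : (P.image m).card ≤ P.card := card_image_le
    omega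
  obtain ⟨P', hP', hc⟩ := exists_subset_card_eq hPc
  let g0 : Fin 63 ≃ P' := (finCongr hc.symm).trans P'.equivFin.symm
  refine ⟨fun i => (g0 i : V), fun i => ?_, fun i j hij => ?_⟩
  · exact (hm _ (mem_filter.1 (hP' (g0 i).2)).1).2.2
  · have hi := mem_filter.1 (hP' (g0 i).2)
    have hj := mem_filter.1 (hP' (g0 j).2)
    have hne : (g0 i : V) ≠ g0 j := fun h => hij (g0.injective (Subtype.ext h))
    have mi := (hm _ hi.1).2.1
    have mj := (hm _ hj.1).2.1
    show (g0 i : V) ≠ g0 j ∧ (g0 i : V) ≠ m (g0 j) ∧ m (g0 i) ≠ (g0 j : V) ∧ m (g0 i) ≠ m (g0 j)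
    refine ⟨hne, fun h => ?_, fun h => ?_, fun h => hne ?_⟩
    · have h1 := hi.2
      have h2 := hj.2
      rw [h, mj] at h1
      exact absurd (lt_trans h1 h2) (lt_irrefl _)
    · have h1 := hi.2
      have h2 := hj.2
      rw [← h, mi] at h2
      exact absurd (lt_trans h1 h2) (lt_irrefl _)
    · rw [← mi, h, mj]

/-- **Main step.** -/
theorem flow_of_no_pack (hc : St_contract) (src dst : E → V) (hcl : ¬ Pk src dst)
    (hbr : Br src dst ∅ ∅) : FlowOn src dst ∅ ∅ := by
  classical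
  by_contra hn
  obtain ⟨s, d, hS, hM⟩ := exists_minC ccP src dst hcl hbr hn
  have h3 := threeC hc hM
  have hgi := girthC hc hM
  by_cases hl : ∀ e, s e = d e
  · exact hM.nf (flow_of_loops hl)
  push Not at hl
  obtain ⟨e, he⟩ := hl
  let G : SimpleGraph V :=
    { Adj := Adj s d
      symm := ⟨fun a b h => GiAux.adj_symm h⟩
      loopless := ⟨fun a h => h.1 rfl⟩ }
  have hG : ∀ a b, G.Adj a b ↔ Adj s d a b := fun a b => Iff.rfl
  have h12 : ∀ (w : V) (c : G.Walk w w), c.IsCycle → 12 ≤ c.length :=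
    fun w c hc => Ord.cycle_len hgi G hG c hc
  have hxy : G.Adj (s e) (d e) := ⟨he, e, Or.inl ⟨rfl, rfl⟩⟩
  obtain ⟨T, m, hT, hm⟩ := matching h12 (fun x y h => h3 x y h) hxy
  obtain ⟨g, hg1, hg2⟩ := pairs63 hT hm
  apply hS
  let β : V → Option (Fin 63) := fun v =>
    if h : ∃ i, v = g i ∨ v = m (g i) then some (Classical.choose h) else none
  have hβ1 : ∀ v i, (v = g i ∨ v = m (g i)) → β v = some i := by
    intro v i hv
    have h : ∃ i, v = g i ∨ v = m (g i) := ⟨i, hv⟩
    have h1 := Classical.choose_spec h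
    simp only [β]
    rw [dif_pos h]
    congr 1
    by_contra hne
    obtain ⟨q1, q2, q3, q4⟩ := hg2 _ _ hne
    rcases h1 with h1 | h1 <;> rcases hv with h2 | h2
    · exact q1 (h1.symm.trans h2)
    · exact q2 (h1.symm.trans h2)
    · exact q3 (h1.symm.trans h2)
    · exact q4 (h1.symm.trans h2)
  have hβ2 : ∀ v i, β v = some i → v = g i ∨ v = m (g i) := by
    intro v i h
    simp only [β] at h
    by_cases h1 : ∃ i, v = g i ∨ v = m (g i)
    · rw [dif_pos h1, Option.some_inj] at h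
      rw [← h]
      exact Classical.choose_spec h1
    · rw [dif_neg h1] at h
      exact absurd h (by simp)
  refine ⟨β, fun i => ⟨?_, ?_⟩⟩
  · rintro X ⟨v, hvX, hv⟩ ⟨v', hvX', hv'⟩
    have hX : ¬ (X (g i) ↔ X (m (g i))) := by
      rcases hβ2 v i hv with h | h <;> rcases hβ2 v' i hv' with h' | h' <;>
        rw [h] at hvX <;> rw [h'] at hvX' <;> tauto
    obtain ⟨-, e', he'⟩ := hg1 i
    refine ⟨e', ?_⟩
    rcases he' with ⟨a, b⟩ | ⟨a, b⟩
    · rw [a, b]
      exact ⟨hβ1 _ i (Or.inl rfl), hβ1 _ i (Or.inr rfl), hX⟩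
    · rw [a, b]
      exact ⟨hβ1 _ i (Or.inr rfl), hβ1 _ i (Or.inl rfl), fun h => hX h.symm⟩
  · exact ⟨g i, m (g i), (hg1 i).ne, hβ1 _ i (Or.inl rfl), hβ1 _ i (Or.inr rfl),
      Ord.three_dg h3 (hg1 i), Ord.three_dg h3 (hg1 i).symm⟩

end Pool.Agent.K3h83.FM
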