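import Pool.Agent.Y358.IN.Ind2
import Pool.Agent.H173FL.Tree
import Pool.Agent.H168DD.TB

set_option autoImplicit false
set_option linter.unusedSectionVars false
set_option linter.unusedVariables false

/-!
# Matchings in graphs of girth at least twelve

A graph of girth at least twelve with minimum degree at least three has a subgraph with 189 edges and
maximum degree three, and a matching with 63 edges.
-/

namespace Pool.Agent.K3h83.FM

open Finset Pool.Agent.TH676.Z Pool.Agent.Y335.FL Pool.Agent.Y358.IN Pool.Agent.H173FL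

/-- the words with `n` letters -/
def wds : ℕ → Finset (List Bool)
  | 0 => {[]}
  | n + 1 => (wds n).image (List.cons false) ∪ (wds n).image (List.cons true)

theorem mem_wds {n : ℕ} : ∀ {w : List Bool}, w ∈ wds n ↔ w.length = n := by
  induction n with
  | zero => intro w; simp [wds]
  | succ n ih =>
    intro w
    rw [wds, mem_union, mem_image, mem_image]
    constructor
    · rintro (⟨w', h, rfl⟩ | ⟨w', h, rfl⟩)
      · rw [List.length_cons, ih.1 h]
      · rw [List.length_cons, ih.1 h]
    · intro h
      cases w with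
      | nil => simp at h
      | cons c w =>
        rw [List.length_cons] at h
        cases c
        · exact Or.inl ⟨w, ih.2 (by omega), rfl⟩
        · exact Or.inr ⟨w, ih.2 (by omega), rfl⟩

theorem card_wds (n : ℕ) : (wds n).card = 2 ^ n := by
  induction n with
  | zero => simp [wds]
  | succ n ih =>
    rw [wds, card_union_of_disjoint, card_image_of_injective _ List.cons_injective,
      card_image_of_injective _ List.cons_injective, ih, pow_succ]
    · ring
    · rw [disjoint_left]
      intro w h1 h2
      obtain ⟨w1, _, rfl⟩ := mem_image.1 h1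
      obtain ⟨w2, _, h⟩ := mem_image.1 h2
      simp at h

/-- the addresses: a branch and a word with at most five letters -/
def slots : Finset (Fin 3 × List Bool) := univ ×ˢ ((range 6).biUnion wds)

theorem mem_slots {s : Fin 3 × List Bool} : s ∈ slots ↔ s.2.length ≤ 5 := by
  unfold slots
  rw [mem_product, mem_biUnion]
  simp only [mem_univ, true_and, mem_wds, mem_range]
  constructor
  · rintro ⟨a, h1, h2⟩; omega
  · intro h; exact ⟨_, by omega, rfl⟩

theorem card_slots : slots.card = 189 := by
  unfold slots
  rw [card_product, card_biUnion]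
  · simp only [card_wds]
    decide
  · intro a _ b _ hab
    change Disjoint (wds a) (wds b)
    rw [disjoint_left]
    intro w h1 h2
    rw [mem_wds] at h1 h2
    exact hab (h1.symm.trans h2)

section graph

variable {V : Type} [Fintype V] [DecidableEq V]

/-- a subgraph with 189 edges and maximum degree three, made of a tree -/
structure Sub3 (G : SimpleGraph V) (r : V) (a b : Fin 3 × List Bool → V) : Prop where
  adj : ∀ s ∈ slots, G.Adj (a s) (b s)
  root : ∀ i, b (i, []) = r
  par : ∀ i c w, b (i, c :: w) = a (i, w)
  ne_root : ∀ s ∈ slots, a s ≠ r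
  inj1 : ∀ i w w', w.length ≤ 5 → w'.length ≤ 5 → a (i, w) = a (i, w') → w = w'
  inj2 : ∀ i j w w', w.length ≤ 4 → w'.length ≤ 5 → a (i, w) = a (j, w') → i = j ∧ w = w'

theorem exists_sub3 {G : SimpleGraph V}
    (h12 : ∀ (w : V) (c : G.Walk w w), c.IsCycle → 12 ≤ c.length)
    (h3 : ∀ x y, G.Adj x y → ∃ a b c, G.Adj x a ∧ G.Adj x b ∧ G.Adj x c ∧ a ≠ b ∧ a ≠ c ∧ b ≠ c)
    {r z : V} (hr : G.Adj r z) : ∃ a b, Sub3 G r a b := by
  classical
  obtain ⟨N, hN⟩ : ∃ N : V → V → V × V, ∀ v pr : V, (∃ z, G.Adj v z) →
      G.Adj v (N v pr).1 ∧ G.Adj v (N v pr).2 ∧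
      (N v pr).1 ≠ (N v pr).2 ∧ (N v pr).1 ≠ pr ∧ (N v pr).2 ≠ pr := by
    have : ∀ v pr : V, ∃ q : V × V, (∃ z, G.Adj v z) → G.Adj v q.1 ∧ G.Adj v q.2 ∧
        q.1 ≠ q.2 ∧ q.1 ≠ pr ∧ q.2 ≠ pr := by
      intro v pr
      by_cases hz : ∃ z, G.Adj v z
      · obtain ⟨z, hz⟩ := hz
        obtain ⟨a, b, h⟩ := two_more (pr := pr) (h3 v z hz)
        exact ⟨(a, b), fun _ => h⟩
      · exact ⟨(v, v), fun h => absurd h hz⟩
    choose N hN using this
    exact ⟨N, hN⟩
  obtain ⟨y0, y1, y2, a0, a1, a2, n01, n02, n12⟩ := h3 r z hr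
  obtain ⟨y, hy, hyi⟩ : ∃ y : Fin 3 → V, (∀ i, G.Adj (y i) r) ∧ Function.Injective y := by
    refine ⟨![y0, y1, y2], ?_, ?_⟩
    · intro i
      fin_cases i
      · exact a0.symm
      · exact a1.symm
      · exact a2.symm
    · intro i j hij
      fin_cases i <;> fin_cases j <;> simp_all
  refine ⟨fun s => (addr N (y s.1) r s.2).1, fun s => (addr N (y s.1) r s.2).2, ?_, ?_, ?_, ?_, ?_,
    ?_⟩
  · rintro ⟨i, w⟩ hs
    rw [mem_slots] at hs
    cases w with
    | nil => exact hy i
    | cons c w =>
      simp only [List.length_cons] at hs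
      obtain ⟨p, -⟩ := addr_path h12 N hN (hy i) w (by omega)
      obtain ⟨n1, n2, -⟩ := hN (addr N (y i) r w).1 (addr N (y i) r w).2 (Ord.nbr (hy i) p)
      cases c
      · exact n2.symm
      · exact n1.symm
  · intro i; rfl
  · intro i c w; rfl
  · rintro ⟨i, w⟩ hs h
    rw [mem_slots] at hs
    obtain ⟨p, hp, hp1, -⟩ := addr_path h12 N hN (hy i) w hs
    have h' : (addr N (y i) r w).1 = r := h
    have h2 : ∀ v, v = (addr N (y i) r w).1 → v ∈ p.support := by
      rintro v rfl
      exact p.end_mem_support
    exact hp1 (h2 r h'.symm)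
  · intro i w w' hw hw' h
    exact addr_inj h12 N hN (hy i) w w' hw hw' h
  · intro i j w w' hw hw' h
    by_cases hij : i = j
    · subst hij
      exact ⟨rfl, addr_inj h12 N hN (hy i) w w' (by omega) hw' h⟩
    · exfalso
      have h' : (addr N (y i) r w).1 = (addr N (y j) r w').1 := h
      obtain ⟨p, hp, hp1, hp2, -⟩ := addr_path h12 N hN (hy i) w (by omega)
      obtain ⟨q, hq, hq1, hq2, -⟩ := addr_path h12 N hN (hy j) w' hw'
      revert q hq hq1 hq2
      rw [← h']
      intro q hq hq1 hq2
      have c1 := (SimpleGraph.Walk.cons_isPath_iff (hy i).symm p).2 ⟨hp, hp1⟩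
      have c2 := (SimpleGraph.Walk.cons_isPath_iff (hy j).symm q).2 ⟨hq, hq1⟩
      have e := Ord.uniq h12 c1 c2 (by
        rw [SimpleGraph.Walk.length_cons, SimpleGraph.Walk.length_cons]
        omega)
      have e2 := congrArg SimpleGraph.Walk.snd e
      rw [SimpleGraph.Walk.snd_cons, SimpleGraph.Walk.snd_cons] at e2
      exact hij (hyi e2)

variable {G : SimpleGraph V} {r : V} {a b : Fin 3 × List Bool → V}

open Classical in
/-- the degree in the subgraph -/
noncomputable def nn (a b : Fin 3 × List Bool → V) (v : V) : ℕ :=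
  (slots.filter (fun s => a s = v)).card + (slots.filter (fun s => b s = v)).card

theorem Sub3.nn_le (h : Sub3 G r a b) (v : V) : nn a b v ≤ 3 := by
  classical
  unfold nn
  by_cases hb : ∃ s ∈ slots, b s = v
  · obtain ⟨⟨i, w⟩, hs, hv⟩ := hb
    rw [mem_slots] at hs
    cases w with
    | nil =>
      rw [h.root] at hv
      have h1 : slots.filter (fun s => a s = v) = ∅ := by
        rw [filter_eq_empty_iff]
        intro s hs h'
        exact h.ne_root s hs (h'.trans hv.symm)
      have h2 : slots.filter (fun s => b s = v) ⊆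
          univ.image (fun i : Fin 3 => (i, ([] : List Bool))) := by
        rintro ⟨j, w⟩ hw
        rw [mem_filter, mem_slots] at hw
        cases w with
        | nil => exact mem_image_of_mem _ (mem_univ j)
        | cons c w =>
          exfalso
          simp only [List.length_cons] at hw
          rw [h.par] at hw
          exact h.ne_root (j, w) (mem_slots.2 (by show w.length ≤ 5; omega)) (hw.2.trans hv.symm)
      have h3 := (card_le_card h2).trans card_image_le
      rw [card_univ, Fintype.card_fin] at h3
      rw [h1, card_empty]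
      omega
    | cons c w =>
      simp only [List.length_cons] at hs
      rw [h.par] at hv
      have h1 : slots.filter (fun s => a s = v) ⊆ {(i, w)} := by
        rintro ⟨j, w'⟩ hw
        rw [mem_filter, mem_slots] at hw
        obtain ⟨e1, e2⟩ := h.inj2 i j w w' (by omega) hw.1 (hv.trans hw.2.symm)
        rw [mem_singleton, e1, e2]
      have h2 : slots.filter (fun s => b s = v) ⊆ {(i, false :: w), (i, true :: w)} := by
        rintro ⟨j, w'⟩ hw
        rw [mem_filter, mem_slots] at hw
        cases w' with
        | nil =>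
          exfalso
          rw [h.root] at hw
          exact h.ne_root (i, w) (mem_slots.2 (by show w.length ≤ 5; omega)) (hv.trans hw.2.symm)
        | cons c' w' =>
          simp only [List.length_cons] at hw
          rw [h.par] at hw
          obtain ⟨e1, e2⟩ := h.inj2 i j w w' (by omega) (by omega) (hv.trans hw.2.symm)
          rw [mem_insert, mem_singleton, ← e1, ← e2]
          cases c'
          · exact Or.inl rfl
          · exact Or.inr rfl
      have h3 := card_le_card h1
      have h4 := (card_le_card h2).trans card_le_two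
      rw [card_singleton] at h3
      omega
  · have h1 : slots.filter (fun s => b s = v) = ∅ := by
      rw [filter_eq_empty_iff]
      intro s hs h'
      exact hb ⟨s, hs, h'⟩
    have h2 : (slots.filter (fun s => a s = v)).card ≤ (univ : Finset (Fin 3)).card := by
      refine card_le_card_of_injOn Prod.fst (fun _ _ => mem_univ _) ?_
      rintro ⟨i, w⟩ hi ⟨j, w'⟩ hj hij
      rw [mem_coe, mem_filter, mem_slots] at hi hj
      have hij' : i = j := hij
      subst hij'
      rw [h.inj1 i w w' hi.1 hj.1 (hi.2.trans hj.2.symm)]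
    rw [card_univ, Fintype.card_fin] at h2
    rw [h1, card_empty]
    omega

/-- the address `s` is a crossing of `K` -/
def Cr (a b : Fin 3 × List Bool → V) (K : Finset V) (s : Fin 3 × List Bool) : Prop :=
  ¬ (a s ∈ K ↔ b s ∈ K)

/-- a crossing on the way up -/
theorem Sub3.up (h : Sub3 G r a b) {K : Finset V} (hr : r ∉ K) (i : Fin 3) :
    ∀ w : List Bool, w.length ≤ 5 → a (i, w) ∈ K → ∃ w', w'.length ≤ w.length ∧
      Cr a b K (i, w') := by
  intro w
  induction w with
  | nil =>
    intro _ hK
    refine ⟨[], le_refl _, ?_⟩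
    unfold Cr
    rw [h.root]
    tauto
  | cons c w ih =>
    intro hw hK
    simp only [List.length_cons] at hw
    by_cases h1 : a (i, w) ∈ K
    · obtain ⟨w', h2, h3⟩ := ih (by omega) h1
      exact ⟨w', by simp only [List.length_cons]; omega, h3⟩
    · refine ⟨c :: w, le_refl _, ?_⟩
      unfold Cr
      rw [h.par]
      tauto

/-- a crossing on the way down -/
theorem Sub3.down (h : Sub3 G r a b) {K : Finset V}
    (h5 : ∀ i w, w.length = 5 → a (i, w) ∉ K) (i : Fin 3) :
    ∀ (n : ℕ) (w : List Bool) (c : Bool), w.length + n = 4 → a (i, w) ∈ K →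
      ∃ w', (c :: w) <:+ w' ∧ w'.length ≤ 5 ∧ Cr a b K (i, w') := by
  intro n
  induction n with
  | zero =>
    intro w c hw hK
    refine ⟨c :: w, List.suffix_refl _, by simp only [List.length_cons]; omega, ?_⟩
    unfold Cr
    rw [h.par]
    have := h5 i (c :: w) (by simp only [List.length_cons]; omega)
    tauto
  | succ n ih =>
    intro w c hw hK
    by_cases h1 : a (i, c :: w) ∈ K
    · obtain ⟨w', h2, h3, h4⟩ := ih (c :: w) false (by simp only [List.length_cons]; omega) h1
      exact ⟨w', (List.suffix_cons _ _).trans h2, h3, h4⟩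
    · refine ⟨c :: w, List.suffix_refl _, by simp only [List.length_cons]; omega, ?_⟩
      unfold Cr
      rw [h.par]
      tauto

open Classical in
/-- **the gain of a set which does not contain the root** -/
theorem Sub3.gain (h : Sub3 G r a b) {K : Finset V} (hr : r ∉ K) (hK : K.Nonempty) :
    3 ≤ ∑ v ∈ K, (3 - nn a b v) + (slots.filter (Cr a b K)).card := by
  by_cases h0 : ∃ v ∈ K, nn a b v = 0
  · obtain ⟨v, hv, h1⟩ := h0
    have := Finset.single_le_sum (f := fun v => 3 - nn a b v) (fun _ _ => Nat.zero_le _) hv
    simp only [h1] at this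
    omega
  push Not at h0
  by_cases h5 : ∀ i w, w.length = 5 → a (i, w) ∉ K
  · obtain ⟨v, hv⟩ := hK
    have h1 := h0 v hv
    obtain ⟨i, w, hw, hiw⟩ : ∃ (i : Fin 3) (w : List Bool), w.length ≤ 4 ∧ a (i, w) = v := by
      unfold nn at h1
      have h2 : 0 < (slots.filter (fun s => a s = v)).card ∨
        0 < (slots.filter (fun s => b s = v)).card := by omega
      rcases h2 with h2 | h2
      · obtain ⟨⟨i, w⟩, hs⟩ := card_pos.1 h2
        rw [mem_filter, mem_slots] at hs
        have h4 : w.length ≠ 5 := fun h => h5 i w h (by rw [hs.2]; exact hv)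
        have h3 : w.length ≤ 5 := hs.1
        exact ⟨i, w, by omega, hs.2⟩
      · obtain ⟨⟨i, w⟩, hs⟩ := card_pos.1 h2
        rw [mem_filter, mem_slots] at hs
        cases w with
        | nil =>
          rw [h.root] at hs
          exact absurd (hs.2 ▸ hv) hr
        | cons c w =>
          rw [h.par] at hs
          simp only [List.length_cons] at hs
          exact ⟨i, w, by omega, hs.2⟩
    have hvK : a (i, w) ∈ K := by rw [hiw]; exact hv
    obtain ⟨w0, h01, h02⟩ := h.up hr i w (by omega) hvK
    obtain ⟨w1, h11, h12, h13⟩ := h.down h5 i (4 - w.length) w false (by omega) hvK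
    obtain ⟨w2, h21, h22, h23⟩ := h.down h5 i (4 - w.length) w true (by omega) hvK
    have l1 := h11.length_le
    have l2 := h21.length_le
    simp only [List.length_cons] at l1 l2
    have n1 : w0 ≠ w1 := by rintro rfl; omega
    have n2 : w0 ≠ w2 := by rintro rfl; omega
    have n3 : w1 ≠ w2 := by
      rintro rfl
      have h31 := List.suffix_of_suffix_length_le h11 h21 (by simp)
      have h32 := h31.eq_of_length (by simp)
      simp at h32
    have hsub : ({(i, w0), (i, w1), (i, w2)} : Finset (Fin 3 × List Bool)) ⊆
        slots.filter (Cr a b K) := by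
      intro s hs
      rw [mem_insert, mem_insert, mem_singleton] at hs
      rw [mem_filter, mem_slots]
      rcases hs with rfl | rfl | rfl
      · exact ⟨by show w0.length ≤ 5; omega, h02⟩
      · exact ⟨h12, h13⟩
      · exact ⟨h22, h23⟩
    have h7 := card_le_card hsub
    rw [card_insert_of_notMem (by simp [n1, n2]), card_insert_of_notMem (by simp [n3]),
      card_singleton] at h7
    omega
  · push Not at h5
    obtain ⟨i0, w0, hw0, hy⟩ := h5
    obtain ⟨y, hydef⟩ : ∃ y, y = a (i0, w0) := ⟨_, rfl⟩
    rw [← hydef] at hy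
    have hb : slots.filter (fun s => b s = y) = ∅ := by
      rw [filter_eq_empty_iff]
      rintro ⟨j, w⟩ hs h'
      rw [mem_slots] at hs
      cases w with
      | nil =>
        rw [h.root] at h'
        exact hr (h' ▸ hy)
      | cons c w =>
        rw [h.par, hydef] at h'
        simp only [List.length_cons] at hs
        have := (h.inj2 j i0 w w0 (by omega) (by omega) h').2
        rw [this] at hs
        omega
    have hn : nn a b y = (slots.filter (fun s => a s = y)).card := by
      unfold nn
      rw [hb, card_empty, Nat.add_zero]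
    have hup : ∀ s ∈ slots.filter (fun s => a s = y), ∃ w' : List Bool, w'.length ≤ 5 ∧
        Cr a b K (s.1, w') := by
      rintro ⟨i, w⟩ hs
      rw [mem_filter, mem_slots] at hs
      obtain ⟨w', h1, h2⟩ := h.up hr i w hs.1 (by rw [hs.2]; exact hy)
      have h3 : w.length ≤ 5 := hs.1
      exact ⟨w', by omega, h2⟩
    choose! g hg1 hg2 using hup
    have hc : (slots.filter (fun s => a s = y)).card ≤ (slots.filter (Cr a b K)).card := by
      refine card_le_card_of_injOn (fun s => (s.1, g s)) ?_ ?_
      · intro s hs
        rw [mem_coe] at hs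
        rw [mem_coe, mem_filter, mem_slots]
        exact ⟨hg1 s hs, hg2 s hs⟩
      · rintro ⟨i, w⟩ hi ⟨j, w'⟩ hj hij
        rw [mem_coe, mem_filter, mem_slots] at hi hj
        have hij' : i = j := congrArg Prod.fst hij
        subst hij'
        rw [h.inj1 i w w' hi.1 hj.1 (hi.2.trans hj.2.symm)]
    have h1 := Finset.single_le_sum (f := fun v => 3 - nn a b v) (fun _ _ => Nat.zero_le _) hy
    have h2 := h.nn_le y
    omega

end graph

end Pool.Agent.K3h83.FM
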