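import Pool.Agent.K3h83.FM.Core

set_option autoImplicit false
set_option linter.unusedSectionVars false
set_option linter.unusedVariables false

/-!
# Matchings in graphs of girth at least twelve: the weights
-/

namespace Pool.Agent.K3h83.FM

open Finset Pool.Agent.TH676.Z Pool.Agent.Y335.FL Pool.Agent.Y358.IN Pool.Agent.H173FL

variable {V : Type} [Fintype V] [DecidableEq V]

/-- a set closed under adjacency contains the vertices reached by walks -/
theorem closed_walk {G : SimpleGraph V} {O : Finset V} (hcl : ∀ x ∈ O, ∀ y, G.Adj x y → y ∈ O)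
    {x v : V} (p : G.Walk x v) (hx : x ∈ O) : v ∈ O := by
  induction p with
  | nil => exact hx
  | cons h _ ih => exact ih (hcl _ hx _ h)

theorem card_closed {G : SimpleGraph V}
    (h12 : ∀ (w : V) (c : G.Walk w w), c.IsCycle → 12 ≤ c.length)
    (h3 : ∀ x y, G.Adj x y → ∃ a b c, G.Adj x a ∧ G.Adj x b ∧ G.Adj x c ∧ a ≠ b ∧ a ≠ c ∧ b ≠ c)
    {O : Finset V} (hcl : ∀ x ∈ O, ∀ y, G.Adj x y → y ∈ O) {x y : V} (hx : x ∈ O)
    (hxy : G.Adj x y) : 126 ≤ O.card := by
  classical
  refine (card_Po h12 h3 hxy).trans (card_le_card ?_)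
  intro v hv
  rcases mem_union.1 hv with h | h
  · obtain ⟨p, -⟩ := mem_Po.1 h
    exact closed_walk hcl p hx
  · obtain ⟨p, -⟩ := mem_Po.1 h
    exact closed_walk hcl p (hcl x hx y hxy)

open Classical in
theorem sum_slots (a : Fin 3 × List Bool → V) (w : V → ℕ) :
    ∑ s ∈ slots, w (a s) = ∑ v : V, (slots.filter (fun s => a s = v)).card * w v := by
  rw [← Finset.sum_fiberwise slots a (fun s => w (a s))]
  refine sum_congr rfl fun v _ => ?_
  rw [sum_congr rfl (g := fun _ => w v) (fun s hs => by rw [(mem_filter.1 hs).2]), sum_const,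
    smul_eq_mul]

open Classical in
/-- **the weight inequality** -/
theorem weight {G : SimpleGraph V}
    (h12 : ∀ (w : V) (c : G.Walk w w), c.IsCycle → 12 ≤ c.length)
    (h3 : ∀ x y, G.Adj x y → ∃ a b c, G.Adj x a ∧ G.Adj x b ∧ G.Adj x c ∧ a ≠ b ∧ a ≠ c ∧ b ≠ c)
    (T : Finset V) (hT : ∀ x, x ∈ T ↔ ∃ y, G.Adj x y) (hT0 : T.Nonempty)
    (A : Finset V) (F : Finset (Finset V)) (hAT : A ⊆ T) (hodd : ∀ O ∈ F, Odd O.card)
    (hdisj : ∀ O ∈ F, ∀ O' ∈ F, O ≠ O' → Disjoint O O') (hsub : ∀ O ∈ F, O ⊆ T \ A)
    (hcl : ∀ O ∈ F, ∀ x ∈ O, ∀ y ∈ T, G.Adj x y → y ∈ O ∨ y ∈ A) :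
    126 + F.card ≤ T.card + A.card := by
  have hmT : ∀ x y, G.Adj x y → x ∈ T ∧ y ∈ T := fun x y h =>
    ⟨(hT x).2 ⟨y, h⟩, (hT y).2 ⟨x, h.symm⟩⟩
  rcases A.eq_empty_or_nonempty with hA | ⟨r, hr⟩
  · -- no vertices in `A`
    rcases F.eq_empty_or_nonempty with hF | ⟨O, hO⟩
    · obtain ⟨x, hx⟩ := hT0
      obtain ⟨y, hxy⟩ := (hT x).1 hx
      have := card_closed h12 h3 (O := T) (fun a _ b hab => (hmT a b hab).2) hx hxy
      rw [hF, card_empty]
      omega
    · have hpos : ∀ O ∈ F, 1 ≤ O.card := fun O hO => (hodd O hO).pos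
      obtain ⟨x, hx⟩ := card_pos.1 (hpos O hO)
      obtain ⟨y, hxy⟩ := (hT x).1 (mem_sdiff.1 (hsub O hO hx)).1
      have h1 := card_closed h12 h3 (O := O) (fun a ha b hab => by
        rcases hcl O hO a ha b (hmT a b hab).2 hab with h | h
        · exact h
        · rw [hA] at h
          exact absurd h (notMem_empty _)) hx hxy
      have h2 := hodd O hO
      rw [Nat.odd_iff] at h2
      have h4 : (F.biUnion id).card = ∑ O ∈ F, O.card := by
        rw [card_biUnion]
        · rfl
        · intro O hO O' hO' h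
          exact hdisj O hO O' hO' h
      have h5 : F.biUnion id ⊆ T := by
        intro v hv
        obtain ⟨O, hO, hv⟩ := mem_biUnion.1 hv
        exact (mem_sdiff.1 (hsub O hO hv)).1
      have h6 := card_le_card h5
      rw [h4, ← add_sum_erase F _ hO] at h6
      have h7 : (F.erase O).card ≤ ∑ O ∈ F.erase O, O.card := by
        rw [card_eq_sum_ones]
        exact sum_le_sum fun O' hO' => hpos O' (mem_of_mem_erase hO')
      have h8 : (F.erase O).card = F.card - 1 := card_erase_of_mem hO
      have h9 : 0 < F.card := card_pos.2 ⟨O, hO⟩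
      omega
  · -- the weights
    obtain ⟨z, hz⟩ := (hT r).1 (hAT hr)
    obtain ⟨a, b, hS⟩ := exists_sub3 h12 h3 hz
    set F' : Finset (Finset V) := F.filter (fun K => 1 < K.card) with hF'
    set w : V → ℕ := fun v => if v ∈ A then 2 else if {v} ∈ F then 0 else if v ∈ T then 1 else 0
      with hw
    have hKA : ∀ K ∈ F, ∀ x ∈ K, x ∉ A := fun K hK x hx => (mem_sdiff.1 (hsub K hK hx)).2
    have hKT : ∀ K ∈ F, ∀ x ∈ K, x ∈ T := fun K hK x hx => (mem_sdiff.1 (hsub K hK hx)).1
    have huniq : ∀ K ∈ F, ∀ K' ∈ F, ∀ x, x ∈ K → x ∈ K' → K = K' := by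
      intro K hK K' hK' x hx hx'
      by_contra hne
      exact (disjoint_left.1 (hdisj K hK K' hK' hne)) hx hx'
    have hF'F : ∀ K ∈ F', K ∈ F ∧ 1 < K.card := fun K hK => mem_filter.1 hK
    have hwA : ∀ x ∈ A, w x = 2 := fun x hx => if_pos hx
    have hsing : ∀ K ∈ F', ∀ x ∈ K, {x} ∉ F := by
      intro K hK x hx h
      have h1 := huniq K (hF'F K hK).1 {x} h x hx (mem_singleton_self x)
      have h2 := (hF'F K hK).2
      rw [h1, card_singleton] at h2
      omega
    have hwK : ∀ K ∈ F', ∀ x ∈ K, w x = 1 := by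
      intro K hK x hx
      simp only [hw]
      rw [if_neg (hKA K (hF'F K hK).1 x hx), if_neg (hsing K hK x hx),
        if_pos (hKT K (hF'F K hK).1 x hx)]
    have hw1 : ∀ x ∈ T, {x} ∉ F → 1 ≤ w x := by
      intro x hx h
      simp only [hw]
      split_ifs <;> omega
    -- one address
    have hslot : ∀ s ∈ slots, 2 + (F'.filter (fun K => Cr a b K s)).card ≤ w (a s) + w (b s) := by
      intro s hs
      have hadj := hS.adj s hs
      obtain ⟨haT, hbT⟩ := hmT _ _ hadj
      by_cases hex : ∃ K ∈ F', Cr a b K s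
      · obtain ⟨K, hK, hc⟩ := hex
        have hKF := (hF'F K hK).1
        have hle : (F'.filter (fun K => Cr a b K s)).card ≤ 1 := by
          rw [card_le_one]
          intro K1 h1 K2 h2
          rw [mem_filter] at h1 h2
          have hK1 := (hF'F K1 h1.1).1
          have hK2 := (hF'F K2 h2.1).1
          have c1 := h1.2
          have c2 := h2.2
          unfold Cr at c1 c2
          by_cases p1 : a s ∈ K1
          · have q1 : b s ∉ K1 := by tauto
            have r1 : b s ∈ A := (hcl K1 hK1 _ p1 _ hbT hadj).resolve_left q1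
            have p2 : a s ∈ K2 := by
              by_contra h
              have : b s ∈ K2 := by
                by_contra h'
                exact c2 ⟨fun x => absurd x h, fun x => absurd x h'⟩
              exact hKA K2 hK2 _ this r1
            exact huniq K1 hK1 K2 hK2 _ p1 p2
          · have q1 : b s ∈ K1 := by tauto
            have r1 : a s ∈ A := (hcl K1 hK1 _ q1 _ haT hadj.symm).resolve_left p1
            have p2 : b s ∈ K2 := by
              by_contra h
              have : a s ∈ K2 := by
                by_contra h'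
                exact c2 ⟨fun x => absurd x h', fun x => absurd x h⟩
              exact hKA K2 hK2 _ this r1
            exact huniq K1 hK1 K2 hK2 _ q1 p2
        unfold Cr at hc
        by_cases p1 : a s ∈ K
        · have q1 : b s ∉ K := by tauto
          have r1 : b s ∈ A := (hcl K hKF _ p1 _ hbT hadj).resolve_left q1
          rw [hwK K hK _ p1, hwA _ r1]
          omega
        · have q1 : b s ∈ K := by tauto
          have r1 : a s ∈ A := (hcl K hKF _ q1 _ haT hadj.symm).resolve_left p1
          rw [hwK K hK _ q1, hwA _ r1]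
          omega
      · have h0 : F'.filter (fun K => Cr a b K s) = ∅ := by
          rw [filter_eq_empty_iff]
          intro K hK h
          exact hex ⟨K, hK, h⟩
        rw [h0, card_empty]
        by_cases p1 : a s ∈ A
        · rw [hwA _ p1]; omega
        by_cases p2 : b s ∈ A
        · rw [hwA _ p2]; omega
        have q1 : {a s} ∉ F := by
          intro h
          rcases hcl _ h _ (mem_singleton_self _) _ hbT hadj with h' | h'
          · exact hadj.ne (mem_singleton.1 h').symm
          · exact p2 h'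
        have q2 : {b s} ∉ F := by
          intro h
          rcases hcl _ h _ (mem_singleton_self _) _ haT hadj.symm with h' | h'
          · exact hadj.ne (mem_singleton.1 h')
          · exact p1 h'
        have := hw1 _ haT q1
        have := hw1 _ hbT q2
        omega
    -- the sum over the addresses
    have hsum1 : 378 + ∑ K ∈ F', (slots.filter (Cr a b K)).card ≤
        ∑ v : V, nn a b v * w v := by
      have e1 : ∑ v : V, nn a b v * w v = ∑ s ∈ slots, (w (a s) + w (b s)) := by
        rw [sum_add_distrib, sum_slots, sum_slots, ← sum_add_distrib]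
        refine sum_congr rfl fun v _ => ?_
        unfold nn
        rw [add_mul]
      have e2 : ∑ K ∈ F', (slots.filter (Cr a b K)).card =
          ∑ s ∈ slots, (F'.filter (fun K => Cr a b K s)).card := by
        simp only [card_filter]
        exact sum_comm
      rw [e1, e2]
      calc 378 + ∑ s ∈ slots, (F'.filter (fun K => Cr a b K s)).card
          = ∑ s ∈ slots, (2 + (F'.filter (fun K => Cr a b K s)).card) := by
            rw [sum_add_distrib, sum_const, card_slots, smul_eq_mul]
        _ ≤ _ := sum_le_sum hslot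
    have hF'disj : ∀ K ∈ F', ∀ K' ∈ F', K ≠ K' → Disjoint K K' := fun K hK K' hK' h =>
      hdisj K (hF'F K hK).1 K' (hF'F K' hK').1 h
    have hsum2 : ∑ K ∈ F', ∑ v ∈ K, (3 - nn a b v) ≤ ∑ v : V, (3 - nn a b v) * w v := by
      have e0 := sum_biUnion (s := F') (t := id) (f := fun v => 3 - nn a b v)
        (fun K hK K' hK' h => hF'disj K hK K' hK' h)
      simp only [id] at e0
      rw [← e0]
      refine le_trans (sum_le_sum (g := fun v => (3 - nn a b v) * w v) ?_)
        (sum_le_sum_of_subset (subset_univ _))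
      intro v hv
      obtain ⟨K, hK, hv⟩ := mem_biUnion.1 hv
      show _ ≤ (3 - nn a b v) * w v
      rw [hwK K hK v hv, mul_one]
    have hgain : 3 * F'.card ≤ ∑ K ∈ F', (slots.filter (Cr a b K)).card +
        ∑ K ∈ F', ∑ v ∈ K, (3 - nn a b v) := by
      rw [← sum_add_distrib, mul_comm, ← smul_eq_mul, ← sum_const]
      refine sum_le_sum fun K hK => ?_
      have hKF := (hF'F K hK).1
      have := hS.gain (K := K) (fun h => hKA K hKF r h hr)
        (card_pos.1 (by have := (hF'F K hK).2; omega))
      omega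
    have htot : 378 + 3 * F'.card ≤ 3 * ∑ v : V, w v := by
      have e1 : 3 * ∑ v : V, w v = ∑ v : V, nn a b v * w v + ∑ v : V, (3 - nn a b v) * w v := by
        rw [← sum_add_distrib, mul_sum]
        refine sum_congr rfl fun v _ => ?_
        rw [← add_mul]
        congr 1
        have := hS.nn_le v
        omega
      omega
    -- the sum of the weights
    set S : Finset V := (T \ A).filter (fun v => {v} ∈ F) with hSdef
    have hwsum : ∑ v : V, w v + S.card = T.card + A.card := by
      have e0 : ∑ v : V, w v = ∑ v ∈ T, w v := by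
        symm
        refine sum_subset (subset_univ _) fun v _ hv => ?_
        simp only [hw]
        rw [if_neg (fun h => hv (hAT h)), if_neg (fun h => hv (hKT _ h v (mem_singleton_self v))),
          if_neg hv]
      have e1 : ∑ v ∈ T, w v = ∑ v ∈ T \ A, w v + ∑ v ∈ A, w v := (sum_sdiff hAT).symm
      have e2 : ∑ v ∈ A, w v = 2 * A.card := by
        rw [sum_congr rfl (g := fun _ => 2) (fun v hv => hwA v hv), sum_const, smul_eq_mul, mul_comm]
      have e3 : ∑ v ∈ T \ A, w v + S.card = (T \ A).card := by
        rw [hSdef, card_filter, ← sum_add_distrib, card_eq_sum_ones]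
        refine sum_congr rfl fun v hv => ?_
        obtain ⟨h1, h2⟩ := mem_sdiff.1 hv
        simp only [hw]
        rw [if_neg h2]
        by_cases h : {v} ∈ F
        · rw [if_pos h, if_pos h]
        · rw [if_neg h, if_neg h, if_pos h1]
      have e4 := card_sdiff_add_card_eq_card hAT
      omega
    have hFS : F.card = S.card + F'.card := by
      have e1 : (F.filter (fun K => ¬ 1 < K.card)).card = S.card := by
        have e2 : F.filter (fun K => ¬ 1 < K.card) = S.image (fun v => {v}) := by
          ext K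
          rw [mem_filter, mem_image]
          constructor
          · rintro ⟨h1, h2⟩
            have h3 := (hodd K h1).pos
            obtain ⟨v, rfl⟩ := card_eq_one.1 (show K.card = 1 by omega)
            exact ⟨v, mem_filter.2 ⟨hsub _ h1 (mem_singleton_self v), h1⟩, rfl⟩
          · rintro ⟨v, hv, rfl⟩
            exact ⟨(mem_filter.1 hv).2, by rw [card_singleton]; omega⟩
        rw [e2, card_image_of_injective _ singleton_injective]
      rw [← e1, hF', add_comm]
      exact (card_filter_add_card_filter_not _).symm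
    omega

/-- a matching with 63 edges -/
theorem matching {G : SimpleGraph V}
    (h12 : ∀ (w : V) (c : G.Walk w w), c.IsCycle → 12 ≤ c.length)
    (h3 : ∀ x y, G.Adj x y → ∃ a b c, G.Adj x a ∧ G.Adj x b ∧ G.Adj x c ∧ a ≠ b ∧ a ≠ c ∧ b ≠ c)
    {x y : V} (hxy : G.Adj x y) :
    ∃ (T : Finset V) (m : V → V), 126 ≤ T.card ∧ ∀ x ∈ T, m x ∈ T ∧ m (m x) = x ∧
      G.Adj x (m x) := by
  classical
  set T : Finset V := univ.filter (fun x => ∃ y, G.Adj x y) with hTdef
  have hT : ∀ x, x ∈ T ↔ ∃ y, G.Adj x y := fun x => by simp [hTdef]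
  have hT0 : T.Nonempty := ⟨x, (hT x).2 ⟨y, hxy⟩⟩
  have h126 : 126 ≤ T.card := card_closed h12 h3 (O := T)
    (fun a _ b hab => (hT b).2 ⟨a, hab.symm⟩) ((hT x).2 ⟨y, hxy⟩) hxy
  obtain ⟨U, m, hUT, hU, hm⟩ := H168DD.tutte_berge G T (T.card - 126)
    ⟨T.card - 63, by omega⟩ (by
      intro A F hAT hodd hdisj hsub hcl
      have := weight h12 h3 T hT hT0 A F hAT hodd hdisj hsub hcl
      omega)
  refine ⟨T \ U, m, ?_, hm⟩
  have := card_sdiff_add_card_eq_card hUT
  omega

end Pool.Agent.K3h83.FM
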